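import Mathlib

/-!
# First letters in a free group under a homomorphism respecting a free product decomposition
-/

namespace HB

namespace LA

open FreeGroup

/-- no cancellation in the product -/
theorem toWord_mul_of_chain {x y : FreeGroup ℕ}
    (h : ∀ p ∈ x.toWord.getLast?, ∀ q ∈ y.toWord.head?, p.1 = q.1 → p.2 = q.2) :
    (x * y).toWord = x.toWord ++ y.toWord := by
  rw [toWord_mul]
  apply IsReduced.reduce_eq
  exact List.isChain_append.2 ⟨isReduced_toWord, isReduced_toWord, h⟩

/-- letters of elements of the subgroup generated by the letters of `D` -/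
theorem letters_of_mem {D : Set ℕ} {x : FreeGroup ℕ}
    (hx : x ∈ Subgroup.closure (FreeGroup.of '' D)) : ∀ p ∈ x.toWord, p.1 ∈ D := by
  induction hx using Subgroup.closure_induction with
  | mem x hx =>
    obtain ⟨b, hb, rfl⟩ := hx
    intro p hp
    rw [toWord_of, List.mem_singleton] at hp
    rw [hp]; exact hb
  | one => intro p hp; simp at hp
  | mul x y _ _ ihx ihy =>
    intro p hp
    have h1 := (toWord_mul_sublist x y).subset hp
    rcases List.mem_append.1 h1 with h2 | h2
    · exact ihx p h2
    · exact ihy p h2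
  | inv x _ ih =>
    intro p hp
    rw [toWord_inv] at hp
    simp only [invRev, List.mem_reverse, List.mem_map] at hp
    obtain ⟨q, hq, rfl⟩ := hp
    exact ih q hq

/-- splitting off the maximal prefix without letters of `A` -/
theorem split (A : Set ℕ) : ∀ L : List (ℕ × Bool), ∃ s r, L = s ++ r ∧ (∀ p ∈ s, p.1 ∉ A) ∧
    (r = [] ∨ ∃ a e t, r = (a, e) :: t ∧ a ∈ A) := by
  intro L
  induction L with
  | nil => exact ⟨[], [], rfl, by simp, Or.inl rfl⟩
  | cons p L ih =>
    by_cases hp : p.1 ∈ A
    · exact ⟨[], p :: L, rfl, by simp, Or.inr ⟨p.1, p.2, L, rfl, hp⟩⟩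
    · obtain ⟨s, r, hL, hs, hr⟩ := ih
      refine ⟨p :: s, r, by rw [hL]; rfl, ?_, hr⟩
      intro q hq
      rcases List.mem_cons.1 hq with rfl | hq
      · exact hp
      · exact hs q hq

/-- a single letter -/
theorem mk_single (a : ℕ) (e : Bool) :
    FreeGroup.mk [(a, e)] = if e then FreeGroup.of a else (FreeGroup.of a)⁻¹ := by
  cases e <;> rfl

theorem map_single {phi : FreeGroup ℕ →* FreeGroup ℕ} {a b : ℕ}
    (h : phi (FreeGroup.of a) = FreeGroup.of b) (e : Bool) :
    phi (FreeGroup.mk [(a, e)]) = FreeGroup.mk [(b, e)] := by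
  rw [mk_single, mk_single]
  cases e
  · simp [h]
  · simp [h]

theorem map_mem {phi : FreeGroup ℕ →* FreeGroup ℕ} {A : Set ℕ} {K : Subgroup (FreeGroup ℕ)}
    (h2 : ∀ a, a ∉ A → phi (FreeGroup.of a) ∈ K) :
    ∀ L : List (ℕ × Bool), (∀ p ∈ L, p.1 ∉ A) → phi (FreeGroup.mk L) ∈ K := by
  intro L
  induction L with
  | nil =>
    intro _
    have : FreeGroup.mk ([] : List (ℕ × Bool)) = 1 := rfl
    rw [this, _root_.map_one]; exact K.one_mem
  | cons p L ih =>
    intro h
    have e1 : FreeGroup.mk (p :: L) = FreeGroup.mk [p] * FreeGroup.mk L := by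
      rw [mul_mk]; rfl
    rw [e1, _root_.map_mul]
    refine K.mul_mem ?_ (ih fun q hq => h q (List.mem_cons_of_mem _ hq))
    obtain ⟨a, e⟩ := p
    have h3 := h2 a (h (a, e) List.mem_cons_self)
    rw [mk_single]
    cases e
    · simpa using h3
    · simpa using h3

theorem head_mul_single {b : ℕ} {e : Bool} {x : FreeGroup ℕ}
    (h : x.toWord.head? ≠ some (b, !e)) :
    (FreeGroup.mk [(b, e)] * x).toWord.head? = some (b, e) := by
  have e1 : (FreeGroup.mk [(b, e)]).toWord = [(b, e)] := by
    rw [toWord_mk]; exact IsReduced.reduce_eq IsReduced.singleton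
  rw [toWord_mul_of_chain, e1]
  · rfl
  · intro p hp q hq
    rw [e1] at hp
    simp only [List.getLast?_singleton, Option.mem_def, Option.some.injEq] at hp
    subst hp
    intro h1
    by_contra h3
    apply h
    rw [Option.mem_def] at hq
    rw [hq]
    obtain ⟨q1, q2⟩ := q
    simp only at h1 h3
    subst h1
    congr 2
    cases e <;> cases q2 <;> simp_all

/-- both statements, by strong induction on the length -/
theorem main {phi : FreeGroup ℕ →* FreeGroup ℕ} {A C : Set ℕ} {c : ℕ → ℕ}
    (hc : Set.InjOn c A) (hC : ∀ a ∈ A, c a ∈ C)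
    (h1 : ∀ a ∈ A, phi (FreeGroup.of a) = FreeGroup.of (c a))
    (h2 : ∀ a, a ∉ A → phi (FreeGroup.of a) ∈ Subgroup.closure (FreeGroup.of '' Cᶜ))
    (hinj : Function.Injective phi) {k : FreeGroup ℕ}
    (hk : k ∈ Subgroup.closure (FreeGroup.of '' Cᶜ)) :
    ∀ (n : ℕ) (L : List (ℕ × Bool)), L.length = n → IsReduced L →
      (∀ a e t, L = (a, e) :: t → a ∈ A → (phi (mk L) * k).toWord.head? = some (c a, e)) ∧
      ((∀ a e t, L = (a, e) :: t → a ∉ A) → ∀ b e, (phi (mk L) * k).toWord.head? = some (b, e) →
        b ∉ C) := by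
  intro n
  induction n using Nat.strong_induction_on with
  | _ n ih =>
    intro L hLn hL
    constructor
    · rintro a e t rfl ha
      have ht : IsReduced t := List.IsChain.tail hL
      obtain ⟨i1, i2⟩ := ih t.length (by rw [← hLn]; simp) t rfl ht
      have e1 : FreeGroup.mk ((a, e) :: t) = FreeGroup.mk [(a, e)] * FreeGroup.mk t := by
        rw [mul_mk]; rfl
      rw [e1, _root_.map_mul, map_single (h1 a ha), mul_assoc]
      apply head_mul_single
      intro h3
      cases t with
      | nil => exact i2 (by intro a e t h; cases h) _ _ h3 (hC a ha)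
      | cons p t =>
        obtain ⟨a', e'⟩ := p
        by_cases ha' : a' ∈ A
        · have h4 := i1 a' e' t rfl ha'
          rw [h3, Option.some.injEq, Prod.mk.injEq] at h4
          have h5 := hc ha ha' h4.1
          have h6 := (isReduced_cons_cons.1 hL).1 h5
          simp only at h6
          rw [← h6] at h4
          cases e <;> simp at h4
        · refine i2 ?_ _ _ h3 (hC a ha)
          intro a1 e1 t1 h
          rw [List.cons.injEq, Prod.mk.injEq] at h
          rw [← h.1.1]; exact ha'
    · intro hhead b e hb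
      obtain ⟨s, r, hsr, hs, hr⟩ := split A L
      cases s with
      | nil =>
        rcases hr with rfl | ⟨a, e', t, rfl, ha⟩
        · simp only [List.append_nil] at hsr
          subst hsr
          have e0 : FreeGroup.mk ([] : List (ℕ × Bool)) = 1 := rfl
          rw [e0, _root_.map_one, one_mul] at hb
          exact letters_of_mem hk (b, e) (List.mem_of_mem_head? hb)
        · exact absurd ha (hhead a e' t hsr)
      | cons p s =>
        have hL' : IsReduced (p :: s ++ r) := by rw [← hsr]; exact hL
        have hsred : IsReduced (p :: s) := List.IsChain.left_of_append hL'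
        have hrred : IsReduced r := List.IsChain.right_of_append hL'
        have hne : phi (FreeGroup.mk (p :: s)) ≠ 1 := by
          intro h0
          have h5 : FreeGroup.mk (p :: s) = 1 := hinj (by rw [h0, _root_.map_one])
          have h6 := congrArg FreeGroup.toWord h5
          rw [toWord_mk, hsred.reduce_eq, toWord_one] at h6
          cases h6
        have hmem := map_mem h2 (p :: s) hs
        have e1 : FreeGroup.mk L = FreeGroup.mk (p :: s) * FreeGroup.mk r := by
          rw [mul_mk, hsr]
        rw [e1, _root_.map_mul, mul_assoc] at hb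
        rcases hr with rfl | ⟨a, e', t, rfl, ha⟩
        · have e0 : FreeGroup.mk ([] : List (ℕ × Bool)) = 1 := rfl
          rw [e0, _root_.map_one, one_mul] at hb
          exact letters_of_mem (Subgroup.mul_mem _ hmem hk) (b, e) (List.mem_of_mem_head? hb)
        · obtain ⟨i1, -⟩ := ih ((a, e') :: t).length (by rw [← hLn, hsr]; simp) _ rfl hrred
          have h7 := i1 a e' t rfl ha
          rw [toWord_mul_of_chain] at hb
          · have hne' : (phi (FreeGroup.mk (p :: s))).toWord ≠ [] := by
              rw [Ne, toWord_eq_nil_iff]; exact hne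
            rw [List.head?_append_of_ne_nil _ hne'] at hb
            exact letters_of_mem hmem (b, e) (List.mem_of_mem_head? hb)
          · intro q hq q' hq' h8
            exfalso
            rw [Option.mem_def, h7, Option.some.injEq] at hq'
            subst hq'
            have h9 := letters_of_mem hmem q (List.mem_of_mem_getLast? hq)
            rw [h8] at h9
            exact h9 (hC a ha)

end LA

theorem lemmaA (phi : FreeGroup ℕ →* FreeGroup ℕ) (A C : Set ℕ) (c : ℕ → ℕ)
    (hc : Set.InjOn c A) (hC : ∀ a ∈ A, c a ∈ C)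
    (h1 : ∀ a ∈ A, phi (FreeGroup.of a) = FreeGroup.of (c a))
    (h2 : ∀ a, a ∉ A → phi (FreeGroup.of a) ∈ Subgroup.closure (FreeGroup.of '' Cᶜ))
    (hinj : Function.Injective phi) (g k : FreeGroup ℕ)
    (hk : k ∈ Subgroup.closure (FreeGroup.of '' Cᶜ)) (a : ℕ) (e : Bool) (ha : a ∈ A)
    (hg : g.toWord.head? = some (a, e)) : (phi g * k).toWord.head? = some (c a, e) := by
  obtain ⟨t, ht⟩ : ∃ t, g.toWord = (a, e) :: t := by
    cases hL : g.toWord with
    | nil => rw [hL] at hg; cases hg
    | cons p t =>
      rw [hL, List.head?_cons, Option.some.injEq] at hg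
      exact ⟨t, by rw [hg]⟩
  have h3 := (LA.main hc hC h1 h2 hinj hk g.toWord.length g.toWord rfl
    FreeGroup.isReduced_toWord).1 a e t ht ha
  rwa [FreeGroup.mk_toWord] at h3

end HB
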